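import Mathlib
import Pool.Agent.K1H88.DP.Stm

/-! Project DP: the sum over dyadic boxes. -/

set_option autoImplicit false

namespace Pool.Agent.K1H40.DP

open Finset Pool.Agent.K1H88.DP

lemma sum_two_zpow (m : ℤ) (n : ℤ) (h : m - 1 ≤ n) : ∑ s ∈ Icc m n, (2 : ℝ) ^ s ≤ 2 ^ (n + 1) := by
  induction n, h using Int.leInduction with
  | base =>
    rw [Icc_eq_empty (by omega), sum_empty]
    positivity
  | succ n hn ih =>
    have h1 : Icc m (n + 1) = insert (n + 1) (Icc m n) := by
      ext i; simp only [mem_insert, mem_Icc]; omega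
    rw [h1, sum_insert (by simp)]
    have h2 : (2 : ℝ) ^ (n + 1 + 1) = 2 ^ (n + 1) + 2 ^ (n + 1) := by
      rw [zpow_add₀ (by norm_num) (n + 1) 1, zpow_one]; ring
    rw [h2]
    linarith

theorem t_SUM : S_SUM := by
  classical
  intro ι _ J w c hJ hw
  obtain ⟨k₀, hk₀⟩ := hJ
  set W : ℕ := ∑ k ∈ J, w k with hW
  have key : ∀ (L : ℝ), 1 ≤ L → ∀ a : ι → ℤ, (∀ k ∈ J, -(c : ℤ) ≤ a k) →
      ((∑ k ∈ J, w k * a k : ℤ) : ℝ) ≤ L → (-(c * W : ℤ) ≤ ∑ k ∈ J, w k * a k ∧
        ∑ k ∈ J, w k * a k ≤ ⌊L⌋ ∧ ∀ k ∈ J, a k ≤ ⌊L⌋ + c * W) := by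
    intro L hL a ha hs
    have h0 : ∀ k ∈ J, -((c : ℤ) * w k) ≤ w k * a k := by
      intro k hk
      have h1 := mul_le_mul_of_nonneg_left (ha k hk) (Int.natCast_nonneg (w k))
      linarith
    have h1 : -(c * W : ℤ) ≤ ∑ k ∈ J, w k * a k := by
      have h2 := sum_le_sum h0
      refine le_trans (le_of_eq ?_) h2
      rw [sum_neg_distrib, ← mul_sum, hW]
      push_cast
      rfl
    have h2 : ∑ k ∈ J, w k * a k ≤ ⌊L⌋ := Int.le_floor.2 hs
    have h3 : 1 ≤ ⌊L⌋ := Int.le_floor.2 (by exact_mod_cast hL)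
    refine ⟨h1, h2, ?_⟩
    intro k hk
    have h4 : -(c * W : ℤ) ≤ ∑ j ∈ J.erase k, w j * a j := by
      have h5 := sum_le_sum (fun j hj => h0 j (mem_of_mem_erase hj) : ∀ j ∈ J.erase k, _)
      refine le_trans ?_ h5
      rw [sum_neg_distrib, ← mul_sum, neg_le_neg_iff]
      apply mul_le_mul_of_nonneg_left _ (Int.natCast_nonneg c)
      rw [hW]
      push_cast
      exact sum_le_sum_of_subset_of_nonneg (erase_subset _ _) (fun i _ _ => Int.natCast_nonneg _)
    have h6 : ∑ j ∈ J, w j * a j = w k * a k + ∑ j ∈ J.erase k, w j * a j :=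
      (add_sum_erase J (fun j => (w j : ℤ) * a j) hk).symm
    have h7 : (w k : ℤ) * a k ≤ ⌊L⌋ + c * W := by linarith
    rcases le_or_gt (a k) 0 with h8 | h8
    · have : (0 : ℤ) ≤ c * W := by positivity
      linarith
    · have h9 : (1 : ℤ) ≤ w k := by exact_mod_cast hw k
      nlinarith
  refine ⟨2 * (2 + c * W + c : ℝ) ^ (J.card - 1), by positivity, ?_⟩
  intro L hL
  have hN1 : 1 ≤ ⌊L⌋ := Int.le_floor.2 (by exact_mod_cast hL)
  have hNL : ((⌊L⌋ : ℤ) : ℝ) ≤ L := Int.floor_le L
  set N : ℤ := ⌊L⌋ with hN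
  have hcW : (0 : ℤ) ≤ c * W := by positivity
  refine ⟨?_, ?_⟩
  · refine (Finset.finite_toSet (Fintype.piFinset (fun k : ι => if k ∈ J then
      Icc (-(c : ℤ)) (N + c * W) else {0}))).subset ?_
    rintro a ⟨h1, h2, h3⟩
    obtain ⟨-, -, h6⟩ := key L hL a h2 h3
    rw [mem_coe, Fintype.mem_piFinset]
    intro k
    by_cases hk : k ∈ J
    · rw [if_pos hk, mem_Icc]
      exact ⟨h2 k hk, h6 k hk⟩
    · rw [if_neg hk, mem_singleton]
      exact h1 k hk
  · intro A hA
    have hmap : ∀ a ∈ A, (∑ k ∈ J, w k * a k : ℤ) ∈ Icc (-(c * W : ℤ)) N := by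
      intro a ha
      obtain ⟨h1, h2, h3⟩ := hA a ha
      obtain ⟨h4, h5, -⟩ := key L hL a h2 h3
      exact mem_Icc.2 ⟨h4, h5⟩
    rw [← sum_fiberwise_of_maps_to hmap]
    have hfib : ∀ s ∈ Icc (-(c * W : ℤ)) N,
        ∑ a ∈ A with (∑ k ∈ J, w k * a k : ℤ) = s, (2 : ℝ) ^ (∑ k ∈ J, w k * a k : ℤ) ≤
        ((2 + c * W + c : ℝ) ^ (J.card - 1) * L ^ (J.card - 1)) * 2 ^ s := by
      intro s _
      have h1 : ∑ a ∈ A with (∑ k ∈ J, w k * a k : ℤ) = s, (2 : ℝ) ^ (∑ k ∈ J, w k * a k : ℤ) =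
          ((A.filter (fun a => (∑ k ∈ J, w k * a k : ℤ) = s)).card : ℝ) * 2 ^ s := by
        rw [← nsmul_eq_mul, ← sum_const]
        apply sum_congr rfl
        intro a ha
        rw [(mem_filter.1 ha).2]
      rw [h1]
      apply mul_le_mul_of_nonneg_right _ (by positivity)
      have h2 : (A.filter (fun a => (∑ k ∈ J, w k * a k : ℤ) = s)).card ≤
          (Fintype.piFinset (fun k : ι => if k ∈ J.erase k₀ then
            Icc (-(c : ℤ)) (N + c * W) else {0})).card := by
        apply card_le_card_of_injOn (fun a => Function.update a k₀ 0)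
        · intro a ha
          rw [mem_coe, mem_filter] at ha
          obtain ⟨h1, h2, h3⟩ := hA a ha.1
          obtain ⟨-, -, h6⟩ := key L hL a h2 h3
          rw [mem_coe, Fintype.mem_piFinset]
          intro k
          show Function.update a k₀ 0 k ∈ _
          by_cases hk : k = k₀
          · subst hk
            simp
          · rw [Function.update_of_ne hk]
            by_cases hkJ : k ∈ J
            · rw [if_pos (mem_erase.2 ⟨hk, hkJ⟩), mem_Icc]
              exact ⟨h2 k hkJ, h6 k hkJ⟩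
            · rw [if_neg (fun h => hkJ (mem_of_mem_erase h)), mem_singleton]
              exact h1 k hkJ
        · intro a ha b hb hab
          rw [mem_coe, mem_filter] at ha hb
          have h3 : ∀ k, k ≠ k₀ → a k = b k := by
            intro k hk
            have := congrFun hab k
            simpa [Function.update_of_ne hk] using this
          have h4 : ∑ k ∈ J, (w k : ℤ) * a k = ∑ k ∈ J, (w k : ℤ) * b k := ha.2.trans hb.2.symm
          rw [← add_sum_erase J (fun j => (w j : ℤ) * a j) hk₀,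
            ← add_sum_erase J (fun j => (w j : ℤ) * b j) hk₀] at h4
          have h5 : ∑ j ∈ J.erase k₀, (w j : ℤ) * a j = ∑ j ∈ J.erase k₀, (w j : ℤ) * b j := by
            apply sum_congr rfl
            intro j hj
            rw [h3 j (ne_of_mem_erase hj)]
          rw [h5] at h4
          have h6 : (w k₀ : ℤ) * a k₀ = w k₀ * b k₀ := by linarith
          have h7 : (w k₀ : ℤ) ≠ 0 := by
            have := hw k₀
            omega
          have h8 : a k₀ = b k₀ := mul_left_cancel₀ h7 h6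
          funext k
          by_cases hk : k = k₀
          · rw [hk, h8]
          · exact h3 k hk
      have h3 : (Fintype.piFinset (fun k : ι => if k ∈ J.erase k₀ then
            Icc (-(c : ℤ)) (N + c * W) else {0})).card =
          ((N + c * W + 1 - -(c : ℤ)).toNat) ^ (J.card - 1) := by
        rw [Fintype.card_piFinset]
        have h4 : ∀ k : ι, (if k ∈ J.erase k₀ then Icc (-(c : ℤ)) (N + c * W) else {0}).card =
            if k ∈ J.erase k₀ then (N + c * W + 1 - -(c : ℤ)).toNat else 1 := by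
          intro k
          split_ifs
          · rw [Int.card_Icc]
          · rw [card_singleton]
        rw [prod_congr rfl (fun k _ => h4 k), prod_ite, prod_const, prod_const_one, mul_one,
          filter_mem_eq_inter, univ_inter, card_erase_of_mem hk₀]
      rw [h3] at h2
      have h4 : (((N + c * W + 1 - -(c : ℤ)).toNat : ℕ) : ℝ) ≤ (2 + c * W + c) * L := by
        have h5 : (((N + c * W + 1 - -(c : ℤ)).toNat : ℕ) : ℤ) = N + c * W + 1 + c := by
          rw [Int.toNat_of_nonneg (by linarith)]; ring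
        have h6 : (((N + c * W + 1 - -(c : ℤ)).toNat : ℕ) : ℝ) = N + c * W + 1 + c := by
          have : ((((N + c * W + 1 - -(c : ℤ)).toNat : ℕ) : ℤ) : ℝ) = ((N + c * W + 1 + c : ℤ) : ℝ) := by
            rw [h5]
          push_cast at this
          exact_mod_cast this
        rw [h6]
        have h7 : (0 : ℝ) ≤ (c : ℝ) * W := by positivity
        have h8 : (0 : ℝ) ≤ (c : ℝ) := by positivity
        nlinarith
      calc ((A.filter (fun a => (∑ k ∈ J, w k * a k : ℤ) = s)).card : ℝ) ≤
          (((N + c * W + 1 - -(c : ℤ)).toNat ^ (J.card - 1) : ℕ) : ℝ) := by exact_mod_cast h2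
        _ = (((N + c * W + 1 - -(c : ℤ)).toNat : ℕ) : ℝ) ^ (J.card - 1) := by push_cast; rfl
        _ ≤ ((2 + c * W + c) * L) ^ (J.card - 1) := by
            apply pow_le_pow_left₀ (by positivity) h4
        _ = _ := by rw [mul_pow]
    refine (sum_le_sum hfib).trans ?_
    rw [← mul_sum]
    have h5 := sum_two_zpow (-(c * W : ℤ)) N (by linarith)
    have h6 : (2 : ℝ) ^ (N + 1) ≤ 2 * 2 ^ L := by
      rw [zpow_add₀ (by norm_num), zpow_one, mul_comm]
      apply mul_le_mul_of_nonneg_left _ (by norm_num)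
      rw [← Real.rpow_intCast]
      exact Real.rpow_le_rpow_of_exponent_le (by norm_num) hNL
    have h7 : 0 ≤ (2 + c * W + c : ℝ) ^ (J.card - 1) * L ^ (J.card - 1) := by positivity
    refine (mul_le_mul_of_nonneg_left (h5.trans h6) h7).trans (le_of_eq ?_)
    ring

end Pool.Agent.K1H40.DP
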